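import Pool.Agent.helper48.TH.Spec

set_option autoImplicit false

namespace TP.TW

open DP MeasureTheory Finset

open Classical in
theorem INF (h1 : SHE_stmt) (h2 : YNG_stmt) (h3 : CXE_stmt) : INF_stmt := by
  intro n κ T E F Λ A M p hp hE hF hM
  have h2n : (0 : ℝ) < 2 ^ n := by positivity
  have hcard0 : (0 : ℝ) ≤ (#{x | E x} : ℝ) := Nat.cast_nonneg _
  have hp0 : 0 ≤ p := by rw [hp]; positivity
  have hF0 : 0 ≤ ∑ τ ∈ T, (#{x | F τ x} : ℝ) / 2 ^ n :=
    Finset.sum_nonneg fun τ _ => by positivity
  rcases hp0.lt_or_eq with hpos | hz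
  · -- main case
    set f : (Fin n → Bool) → ℝ := fun x => if E x then 1 / p else 0 with hf
    have hf0 : ∀ x, 0 ≤ f x := by
      intro x
      simp only [hf]
      split_ifs
      · positivity
      · exact le_rfl
    have hEp : (#{x | E x} : ℝ) = p * 2 ^ n := by
      rw [hp]; field_simp
    have hpne : p ≠ 0 := hpos.ne'
    have hsum : ∀ (c : ℝ) (P : (Fin n → Bool) → Prop) [DecidablePred P],
        ∑ x, (if P x then c else 0) = (#{x | P x} : ℝ) * c := by
      intro c P _
      rw [← Finset.sum_filter, Finset.sum_const, nsmul_eq_mul]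
    have havf : av f = 1 := by
      unfold av
      rw [hf, hsum, hEp]
      field_simp
    have hEt : Et f = Real.log (1 / p) := by
      unfold Et
      rw [havf]
      have e1 : (fun x => ph (f x)) = fun x => if E x then ph (1 / p) else 0 := by
        funext x
        simp only [hf]
        split_ifs
        · rfl
        · simp [ph]
      rw [e1]
      unfold av
      rw [hsum, hEp]
      simp only [ph, Real.log_one, mul_zero, sub_zero]
      field_simp
    have key : ∀ c : ℝ, c / 2 ^ n = p * (c * (1 / p) / 2 ^ n) := by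
      intro c
      field_simp
    obtain ⟨d, hd0, hdsum, hdA⟩ := h1 n f hf0
    have hτ : ∀ τ ∈ T, (#{x | E x ∧ F τ x} : ℝ) / 2 ^ n ≤
        p * ((∑ i ∈ A τ ∩ Λ, d i) + 2 * ((#{x | F τ x} : ℝ) / 2 ^ n)) := by
      intro τ hτT
      obtain ⟨c1, c2, c3, c4⟩ := h3 n (A τ) f
      have e1 : (#{x | E x ∧ F τ x} : ℝ) / 2 ^ n = p * av (fun x => if F τ x then f x else 0) := by
        have e2 : (fun x => if F τ x then f x else 0) =
            fun x => if (E x ∧ F τ x) then 1 / p else 0 := by
          funext x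
          simp only [hf]
          by_cases hx : F τ x <;> by_cases hy : E x <;> simp [hx, hy]
        rw [e2]
        unfold av
        beta_reduce
        have e9 := hsum (1 / p) (fun x => E x ∧ F τ x)
        beta_reduce at e9
        rw [e9]
        exact key _
      rw [e1]
      have e3 : av (fun x => if F τ x then f x else 0) =
          av (fun x => if F τ x then cex (A τ) f x else 0) := c3 (F τ) (hF τ hτT)
      have e4 := h2 n (cex (A τ) f) (F τ) (c1 hf0) (by rw [c2, havf])
      have e5 : cex (A τ) f = cex (A τ ∩ Λ) f := by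
        apply c4 Λ
        intro x y hxy
        have := hE x y hxy
        simp only [hf]
        by_cases hx : E x
        · have hy := this.1 hx
          simp [hx, hy]
        · have hy : ¬ E y := fun h => hx (this.2 h)
          simp [hx, hy]
      have e6 : Et (cex (A τ) f) ≤ ∑ i ∈ A τ ∩ Λ, d i := by
        rw [e5]; exact hdA _
      rw [e3]
      have : av (fun x => if F τ x then cex (A τ) f x else 0) ≤
          (∑ i ∈ A τ ∩ Λ, d i) + 2 * ((#{x | F τ x} : ℝ) / 2 ^ n) := by
        refine e4.trans ?_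
        linarith
      exact mul_le_mul_of_nonneg_left this hpos.le
    have hD : ∑ τ ∈ T, ∑ i ∈ A τ ∩ Λ, d i ≤ M * Real.log (1 / p) := by
      have e1 : ∑ τ ∈ T, ∑ i ∈ A τ ∩ Λ, d i = ∑ i ∈ Λ, (#{τ ∈ T | i ∈ A τ} : ℝ) * d i := by
        have : ∀ τ ∈ T, ∑ i ∈ A τ ∩ Λ, d i = ∑ i ∈ Λ, if i ∈ A τ then d i else 0 := by
          intro τ _
          rw [← Finset.sum_filter]
          congr 1
          ext i
          simp [and_comm]
        rw [Finset.sum_congr rfl this, Finset.sum_comm]
        refine Finset.sum_congr rfl fun i _ => ?_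
        rw [← Finset.sum_filter, Finset.sum_const, nsmul_eq_mul]
      rw [e1, ← hEt, ← hdsum, Finset.mul_sum]
      calc ∑ i ∈ Λ, (#{τ ∈ T | i ∈ A τ} : ℝ) * d i ≤ ∑ i ∈ Λ, (M : ℝ) * d i := by
            refine Finset.sum_le_sum fun i hi => ?_
            exact mul_le_mul_of_nonneg_right (by exact_mod_cast hM i hi) (hd0 i)
        _ ≤ ∑ i, (M : ℝ) * d i := by
            refine Finset.sum_le_sum_of_subset_of_nonneg (Finset.subset_univ _) fun i _ _ => ?_
            exact mul_nonneg (Nat.cast_nonneg _) (hd0 i)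
    calc ∑ τ ∈ T, (#{x | E x ∧ F τ x} : ℝ) / 2 ^ n
        ≤ ∑ τ ∈ T, p * ((∑ i ∈ A τ ∩ Λ, d i) + 2 * ((#{x | F τ x} : ℝ) / 2 ^ n)) :=
          Finset.sum_le_sum hτ
      _ = p * (∑ τ ∈ T, ∑ i ∈ A τ ∩ Λ, d i) + 2 * p * ∑ τ ∈ T, (#{x | F τ x} : ℝ) / 2 ^ n := by
          rw [← Finset.mul_sum, Finset.sum_add_distrib, ← Finset.mul_sum]
          ring
      _ ≤ p * (M * Real.log (1 / p)) + 2 * p * ∑ τ ∈ T, (#{x | F τ x} : ℝ) / 2 ^ n := by
          have := mul_le_mul_of_nonneg_left hD hpos.le
          linarith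
  · -- p = 0
    have hc : (#{x | E x} : ℝ) = 0 := by
      have : (#{x | E x} : ℝ) / 2 ^ n = 0 := by rw [← hp, ← hz]
      rcases div_eq_zero_iff.1 this with h | h
      · exact h
      · exact absurd h h2n.ne'
    have hc' : #{x | E x} = 0 := by exact_mod_cast hc
    have hno : ∀ x, ¬ E x := by
      intro x hx
      have : x ∈ ({x | E x} : Finset (Fin n → Bool)) := by simp [hx]
      rw [Finset.card_eq_zero] at hc'
      rw [hc'] at this
      simp at this
    have e1 : ∑ τ ∈ T, (#{x | E x ∧ F τ x} : ℝ) / 2 ^ n = 0 := by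
      refine Finset.sum_eq_zero fun τ _ => ?_
      have : ({x | E x ∧ F τ x} : Finset (Fin n → Bool)) = ∅ := by
        ext x
        simp [hno x]
      rw [this]
      simp
    rw [e1, ← hz]
    simp

end TP.TW
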